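import Mathlib
import Pool.Agent.Q302.HU.Defs

namespace Pool.Agent.Results.MP_eebbd0_lc.UniformitiesCoincide

open Pool.Agent.Q302.HU

/-- For all dimensions `n`, `n'` and all exponents `0 < r < n`, `0 < s < n'`, the least size of a
subset of `ℝ^n` of positive `r`-dimensional Hausdorff measure equals the least size of a subset of
`ℝ^n'` of positive `s`-dimensional Hausdorff measure. -/
theorem result (n n' : ℕ) (r s : ℝ) (hr : 0 < r) (hrn : r < n) (hs : 0 < s) (hsn : s < n') :
    nonH n r = nonH n' s :=
  le_antisymm (nonH_le n' n s r hs hsn hr hrn) (nonH_le n n' r s hr hrn hs hsn)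

end Pool.Agent.Results.MP_eebbd0_lc.UniformitiesCoincide
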